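import Pool.Agent.Y184.SP.Base2

/-!
# Local injectivity and transition maps of the coordinate systems
-/

set_option autoImplicit false

open Set Topology Filter
open scoped ContDiff Manifold

namespace Pool.Agent.Y378.SP

open Pool.Agent.Y184.SP

/-! ### the lattice -/

lemma frc_re (x : ℂ) : (frc x).re = Int.fract x.re := by simp [frc]

lemma frc_im (x : ℂ) : (frc x).im = Int.fract x.im := by simp [frc]

lemma frc_add {x l : ℂ} (hl : l ∈ Lam) : frc (x + l) = frc x := by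
  obtain ⟨m, n, rfl⟩ := hl
  apply Complex.ext
  · rw [frc_re, frc_re]
    have : (x + (m + n * Complex.I)).re = x.re + m := by simp
    rw [this, Int.fract_add_intCast]
  · rw [frc_im, frc_im]
    have : (x + (m + n * Complex.I)).im = x.im + n := by simp
    rw [this, Int.fract_add_intCast]

lemma frc_eq {x x' : ℂ} (h : frc x = frc x') : x' - x ∈ Lam := by
  have h1 := congrArg Complex.re h
  have h2 := congrArg Complex.im h
  rw [frc_re, frc_re] at h1
  rw [frc_im, frc_im] at h2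
  obtain ⟨m, hm⟩ := Int.fract_eq_fract.mp h1.symm
  obtain ⟨n, hn⟩ := Int.fract_eq_fract.mp h2.symm
  refine ⟨m, n, ?_⟩
  apply Complex.ext
  · simp [hm]
  · simp [hn]

lemma lam_small {x : ℂ} (hx : x ∈ Lam) (h : ‖x‖ < 1) : x = 0 := by
  obtain ⟨m, n, rfl⟩ := hx
  have h1 := (Complex.abs_re_le_norm _).trans_lt h
  have h2 := (Complex.abs_im_le_norm _).trans_lt h
  have e1 : ((m : ℂ) + n * Complex.I).re = m := by simp
  have e2 : ((m : ℂ) + n * Complex.I).im = n := by simp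
  rw [e1] at h1
  rw [e2] at h2
  have h3 : |m| < 1 := by exact_mod_cast h1
  have h4 : |n| < 1 := by exact_mod_cast h2
  rw [Int.abs_lt_one_iff] at h3 h4
  rw [h3, h4]
  simp

lemma frc_inj {x x' : ℂ} (h : frc x = frc x') (hx : ‖x‖ < 1 / 8) (hx' : ‖x'‖ < 1 / 8) : x = x' := by
  have h1 := lam_small (frc_eq h) (by
    calc ‖x' - x‖ ≤ ‖x'‖ + ‖x‖ := norm_sub_le _ _
      _ < 1 := by linarith)
  exact (sub_eq_zero.mp h1).symm

/-! ### the inverse -/

lemma inv1_zero : inv1 0 = OnePoint.infty := by simp [inv1]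

lemma inv1_ne {ξ : ℂ} (h : ξ ≠ 0) : inv1 ξ = ((ξ⁻¹ : ℂ) : OnePoint ℂ) := by simp [inv1, h]

lemma inv1_infty {ξ : ℂ} (h : inv1 ξ = OnePoint.infty) : ξ = 0 := by
  by_contra hξ
  rw [inv1_ne hξ] at h
  exact OnePoint.coe_ne_infty _ h

lemma inv1_coe {ξ a : ℂ} (h : inv1 ξ = ((a : ℂ) : OnePoint ℂ)) : ξ ≠ 0 ∧ ξ⁻¹ = a := by
  have hξ : ξ ≠ 0 := by
    rintro rfl
    rw [inv1_zero] at h
    exact OnePoint.infty_ne_coe _ h
  rw [inv1_ne hξ] at h
  exact ⟨hξ, OnePoint.coe_injective h⟩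

lemma inv1_inj {ξ ξ' : ℂ} (h : inv1 ξ = inv1 ξ') : ξ = ξ' := by
  by_cases h0 : ξ' = 0
  · subst h0
    rw [inv1_zero] at h
    exact inv1_infty h
  · rw [inv1_ne h0] at h
    exact inv_injective (inv1_coe h).2

/-! ### values of `kap0` -/

lemma k0 (z : E) : kap0 0 z = Pt.reg (frc z.1) (z.2 : ℂ) := rfl

lemma k1 (z : E) : kap0 1 z = Pt.reg (frc z.1) (inv1 z.2) := rfl

lemma k2e {z : E} (h : z.2 = 0) : kap0 2 z = Pt.exc (inv1 z.1) OnePoint.infty := if_pos h

lemma k2r {z : E} (h : z.2 ≠ 0) : kap0 2 z =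
    Pt.reg (frc (z.1 * z.2)) ((z.2 + z.1 * z.2 : ℂ) : OnePoint ℂ) := if_neg h

lemma k3e {z : E} (h : z.1 * z.2 = 0) : kap0 3 z = Pt.exc (z.2 : ℂ) (inv1 z.1) := if_pos h

lemma k3r {z : E} (h : z.1 * z.2 ≠ 0) : kap0 3 z =
    Pt.reg (frc (z.1 * z.2)) ((z.1 * z.2 ^ 2 + z.1 * z.2 : ℂ) : OnePoint ℂ) := if_neg h

lemma k4e {z : E} (h : z.1 = 0) : kap0 4 z = Pt.exc ((0 : ℂ) : OnePoint ℂ) (z.2 : ℂ) := if_pos h

lemma k4r {z : E} (h : z.1 ≠ 0) : kap0 4 z =
    Pt.reg (frc z.1) ((z.1 ^ 2 * z.2 + z.1 : ℂ) : OnePoint ℂ) := if_neg h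

/-- two values of `kap0` of regular type -/
lemma reg_inj {x x' y y' : ℂ} (h : Pt.reg x (y : ℂ) = Pt.reg x' (y' : ℂ)) : x = x' ∧ y = y' := by
  rw [Pt.reg.injEq] at h
  exact ⟨h.1, OnePoint.coe_injective h.2⟩

/-! ### injectivity in the charts 2, 3, 4 -/

lemma inj2 {t t' : E} (ht : t ∈ V 2) (ht' : t' ∈ V 2) (h : kap0 2 t = kap0 2 t') : t = t' := by
  have ht1 : ‖t.1 * t.2‖ < 1 / 8 := ht.1
  have ht1' : ‖t'.1 * t'.2‖ < 1 / 8 := ht'.1
  by_cases h0 : t.2 = 0 <;> by_cases h0' : t'.2 = 0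
  · rw [k2e h0, k2e h0', Pt.exc.injEq] at h
    exact Prod.ext (inv1_inj h.1) (h0.trans h0'.symm)
  · rw [k2e h0, k2r h0'] at h
    exact absurd h (by simp)
  · rw [k2r h0, k2e h0'] at h
    exact absurd h (by simp)
  · rw [k2r h0, k2r h0'] at h
    obtain ⟨h1, h2⟩ := reg_inj h
    have h3 := frc_inj h1 ht1 ht1'
    rw [h3] at h2
    have h4 : t.2 = t'.2 := add_right_cancel h2
    rw [h4] at h3
    exact Prod.ext (mul_right_cancel₀ h0' h3) h4

lemma inj3 {t t' : E} (ht : t ∈ V 3) (ht' : t' ∈ V 3) (h : kap0 3 t = kap0 3 t') : t = t' := by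
  have ht1 : ‖t.1 * t.2‖ < 1 / 8 := ht.1
  have ht1' : ‖t'.1 * t'.2‖ < 1 / 8 := ht'.1
  by_cases h0 : t.1 * t.2 = 0 <;> by_cases h0' : t'.1 * t'.2 = 0
  · rw [k3e h0, k3e h0', Pt.exc.injEq] at h
    exact Prod.ext (inv1_inj h.2) (OnePoint.coe_injective h.1)
  · rw [k3e h0, k3r h0'] at h
    exact absurd h (by simp)
  · rw [k3r h0, k3e h0'] at h
    exact absurd h (by simp)
  · rw [k3r h0, k3r h0'] at h
    obtain ⟨h1, h2⟩ := reg_inj h
    have h3 := frc_inj h1 ht1 ht1'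
    rw [h3] at h2
    have h4 : t.1 * t.2 ^ 2 = t'.1 * t'.2 ^ 2 := add_right_cancel h2
    have h5 : t.2 = t'.2 := by
      have e1 : (t'.1 * t'.2) * t.2 = (t'.1 * t'.2) * t'.2 := by
        calc (t'.1 * t'.2) * t.2 = (t.1 * t.2) * t.2 := by rw [h3]
          _ = t.1 * t.2 ^ 2 := by ring
          _ = t'.1 * t'.2 ^ 2 := h4
          _ = _ := by ring
      exact mul_left_cancel₀ h0' e1
    rw [h5] at h3
    exact Prod.ext (mul_right_cancel₀ (right_ne_zero_of_mul h0') h3) h5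

lemma inj4 {t t' : E} (ht : t ∈ V 4) (ht' : t' ∈ V 4) (h : kap0 4 t = kap0 4 t') : t = t' := by
  have ht1 : ‖t.1‖ < 1 / 8 := ht.1
  have ht1' : ‖t'.1‖ < 1 / 8 := ht'.1
  by_cases h0 : t.1 = 0 <;> by_cases h0' : t'.1 = 0
  · rw [k4e h0, k4e h0', Pt.exc.injEq] at h
    exact Prod.ext (h0.trans h0'.symm) (OnePoint.coe_injective h.2)
  · rw [k4e h0, k4r h0'] at h
    exact absurd h (by simp)
  · rw [k4r h0, k4e h0'] at h
    exact absurd h (by simp)
  · rw [k4r h0, k4r h0'] at h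
    obtain ⟨h1, h2⟩ := reg_inj h
    have h3 := frc_inj h1 ht1 ht1'
    rw [h3] at h2
    have h4 : t'.1 ^ 2 * t.2 = t'.1 ^ 2 * t'.2 := add_right_cancel h2
    exact Prod.ext h3 (mul_left_cancel₀ (pow_ne_zero 2 h0') h4)

/-! ### germs -/

/-- a transition map from the chart `i` to the chart `j` -/
def Germ (i j : Fin 5) (z z' : E) : Prop := ∃ h : E → E, ContDiffAt ℂ ω h z ∧ h z = z' ∧
    ∀ᶠ t in 𝓝 z, kap i t = kap j (h t)

lemma Germ.comp {i j k : Fin 5} {z z' z'' : E} (h1 : Germ i j z z') (h2 : Germ j k z' z'') :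
    Germ i k z z'' := by
  obtain ⟨f, hf, rfl, hf2⟩ := h1
  obtain ⟨g, hg, rfl, hg2⟩ := h2
  refine ⟨g ∘ f, hg.comp z hf, rfl, ?_⟩
  filter_upwards [hf2, hf.continuousAt.eventually hg2] with t ht1 ht2
  rw [ht1, ht2, Function.comp_apply]

lemma mkGerm (hPt : StPt) {i j : Fin 5} {z z' : E} (hz : z ∈ V i) (hz' : z' ∈ V j) (h : E → E)
    (h1 : ContDiffAt ℂ ω h z) (h2 : h z = z')
    (h3 : ∀ᶠ t in 𝓝 z, kap0 i t = kap0 j (h t)) : Germ i j z z' := by
  obtain ⟨ho, -, hk, -⟩ := hPt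
  refine ⟨h, h1, h2, ?_⟩
  have e1 : ∀ᶠ t in 𝓝 z, t ∈ V i := (ho i).mem_nhds hz
  have e2 : ∀ᶠ t in 𝓝 z, h t ∈ V j := by
    apply h1.continuousAt.eventually
    rw [h2]
    exact (ho j).mem_nhds hz'
  filter_upwards [e1, e2, h3] with t ht1 ht2 ht3
  apply Subtype.ext
  rw [hk i t ht1, hk j _ ht2, ht3]

lemma cd_fst {z : E} : ContDiffAt ℂ ω (fun t : E => t.1) z := contDiffAt_fst

lemma cd_snd {z : E} : ContDiffAt ℂ ω (fun t : E => t.2) z := contDiffAt_snd

/-- the point `z` of the chart `i` is regular and `y` is finite there -/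
def Rg (i : Fin 5) (z : E) : Prop := ∃ x y : ℂ, kap0 i z = Pt.reg x (y : ℂ)

lemma ev_ne {f : E → ℂ} {z : E} (hf : ContinuousAt f z) (h : f z ≠ 0) : ∀ᶠ t in 𝓝 z, f t ≠ 0 :=
  hf.eventually_ne h

lemma V0_of {z : E} (h : z.1 ∉ Lam ∨ z.2 ≠ 0) : z ∈ V 0 := h

lemma not_lam {x : ℂ} (h0 : x ≠ 0) (h : ‖x‖ < 1 / 8) : x ∉ Lam := fun h1 =>
  h0 (lam_small h1 (by linarith))

lemma two_cases (hPt : StPt) {z : E} (hz : z ∈ V 2) (h : z.2 ≠ 0) :
    tr 2 z ∈ V 0 ∧ kap0 2 z = kap0 0 (tr 2 z) ∧ Germ 2 0 z (tr 2 z) ∧ Germ 0 2 (tr 2 z) z := by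
  have hz1 : ‖z.1 * z.2‖ < 1 / 8 := hz.1
  have hV : tr 2 z ∈ V 0 := by
    apply V0_of
    change z.1 * z.2 ∉ Lam ∨ z.2 + z.1 * z.2 ≠ 0
    by_cases h0 : z.1 * z.2 = 0
    · right
      rw [h0, add_zero]
      exact h
    · exact Or.inl (not_lam h0 hz1)
  refine ⟨hV, k2r h, ?_, ?_⟩
  · refine mkGerm hPt hz hV (tr 2) ?_ rfl ?_
    · exact (cd_fst.mul cd_snd).prodMk (cd_snd.add (cd_fst.mul cd_snd))
    · filter_upwards [ev_ne (continuous_snd.continuousAt (x := z)) h] with t ht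
      exact k2r ht
  · have hw : (tr 2 z).2 - (tr 2 z).1 = z.2 := by
      change z.2 + z.1 * z.2 - z.1 * z.2 = z.2
      ring
    have hw0 : (tr 2 z).2 - (tr 2 z).1 ≠ 0 := by
      rw [hw]
      exact h
    refine mkGerm hPt hV hz (fun s => (s.1 / (s.2 - s.1), s.2 - s.1)) ?_ ?_ ?_
    · exact (cd_fst.div (cd_snd.sub cd_fst) hw0).prodMk (cd_snd.sub cd_fst)
    · refine Prod.ext ?_ hw
      change (tr 2 z).1 / ((tr 2 z).2 - (tr 2 z).1) = z.1
      rw [hw]
      change z.1 * z.2 / z.2 = z.1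
      field_simp
    · filter_upwards [ev_ne (f := fun s : E => s.2 - s.1) (by fun_prop) hw0] with t ht
      rw [k0, k2r ht]
      dsimp only
      rw [div_mul_cancel₀ _ ht, sub_add_cancel]

lemma three_cases (hPt : StPt) {z : E} (hz : z ∈ V 3) (h : z.1 * z.2 ≠ 0) :
    tr 3 z ∈ V 0 ∧ kap0 3 z = kap0 0 (tr 3 z) ∧ Germ 3 0 z (tr 3 z) ∧ Germ 0 3 (tr 3 z) z := by
  have hz1 : ‖z.1 * z.2‖ < 1 / 8 := hz.1
  have hV : tr 3 z ∈ V 0 := V0_of (Or.inl (not_lam h hz1))
  have ha := left_ne_zero_of_mul h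
  have hb := right_ne_zero_of_mul h
  refine ⟨hV, k3r h, ?_, ?_⟩
  · refine mkGerm hPt hz hV (tr 3) ?_ rfl ?_
    · exact (cd_fst.mul cd_snd).prodMk ((cd_fst.mul (cd_snd.pow 2)).add (cd_fst.mul cd_snd))
    · filter_upwards [ev_ne (f := fun s : E => s.1 * s.2) (by fun_prop) h] with t ht
      exact k3r ht
  · have hw : (tr 3 z).2 - (tr 3 z).1 = z.1 * z.2 ^ 2 := by
      change z.1 * z.2 ^ 2 + z.1 * z.2 - z.1 * z.2 = _
      ring
    have hw0 : (tr 3 z).2 - (tr 3 z).1 ≠ 0 := by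
      rw [hw]
      exact mul_ne_zero ha (pow_ne_zero 2 hb)
    have hx0 : (tr 3 z).1 ≠ 0 := h
    refine mkGerm hPt hV hz (fun s => (s.1 ^ 2 / (s.2 - s.1), (s.2 - s.1) / s.1)) ?_ ?_ ?_
    · exact ((cd_fst.pow 2).div (cd_snd.sub cd_fst) hw0).prodMk ((cd_snd.sub cd_fst).div cd_fst hx0)
    · refine Prod.ext ?_ ?_
      · change (tr 3 z).1 ^ 2 / ((tr 3 z).2 - (tr 3 z).1) = z.1
        rw [hw]
        change (z.1 * z.2) ^ 2 / _ = z.1
        field_simp
      · change ((tr 3 z).2 - (tr 3 z).1) / (tr 3 z).1 = z.2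
        rw [hw]
        change _ / (z.1 * z.2) = z.2
        field_simp
    · filter_upwards [ev_ne (f := fun s : E => s.2 - s.1) (by fun_prop) hw0,
        ev_ne (f := fun s : E => s.1) (by fun_prop) hx0] with t ht ht2
      have e : (t.1 ^ 2 / (t.2 - t.1)) * ((t.2 - t.1) / t.1) = t.1 := by field_simp
      have e2 : (t.1 ^ 2 / (t.2 - t.1)) * ((t.2 - t.1) / t.1) ^ 2 = t.2 - t.1 := by field_simp
      rw [k0, k3r (by
        change (t.1 ^ 2 / (t.2 - t.1)) * ((t.2 - t.1) / t.1) ≠ 0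
        rw [e]
        exact ht2)]
      dsimp only
      rw [e, e2, sub_add_cancel]

lemma four_cases (hPt : StPt) {z : E} (hz : z ∈ V 4) (h : z.1 ≠ 0) :
    tr 4 z ∈ V 0 ∧ kap0 4 z = kap0 0 (tr 4 z) ∧ Germ 4 0 z (tr 4 z) ∧ Germ 0 4 (tr 4 z) z := by
  have hz1 : ‖z.1‖ < 1 / 8 := hz.1
  have hV : tr 4 z ∈ V 0 := V0_of (Or.inl (not_lam h hz1))
  refine ⟨hV, k4r h, ?_, ?_⟩
  · refine mkGerm hPt hz hV (tr 4) ?_ rfl ?_
    · exact cd_fst.prodMk (((cd_fst.pow 2).mul cd_snd).add cd_fst)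
    · filter_upwards [ev_ne (f := fun s : E => s.1) (by fun_prop) h] with t ht
      exact k4r ht
  · have hx0 : (tr 4 z).1 ≠ 0 := h
    refine mkGerm hPt hV hz (fun s => (s.1, (s.2 - s.1) / s.1 ^ 2)) ?_ ?_ ?_
    · exact cd_fst.prodMk ((cd_snd.sub cd_fst).div (cd_fst.pow 2) (pow_ne_zero 2 hx0))
    · refine Prod.ext rfl ?_
      change (z.1 ^ 2 * z.2 + z.1 - z.1) / z.1 ^ 2 = z.2
      field_simp
      ring
    · filter_upwards [ev_ne (f := fun s : E => s.1) (by fun_prop) hx0] with t ht2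
      rw [k0, k4r (z := (t.1, (t.2 - t.1) / t.1 ^ 2)) ht2]
      dsimp only
      have e2 : t.1 ^ 2 * ((t.2 - t.1) / t.1 ^ 2) = t.2 - t.1 := by field_simp
      rw [e2, sub_add_cancel]

lemma one_cases (hPt : StPt) {z : E} (h : z.2 ≠ 0) :
    tr 1 z ∈ V 0 ∧ kap0 1 z = kap0 0 (tr 1 z) ∧ Germ 1 0 z (tr 1 z) ∧ Germ 0 1 (tr 1 z) z := by
  have hz : z ∈ V 1 := Set.mem_univ z
  have hV : tr 1 z ∈ V 0 := V0_of (Or.inr (inv_ne_zero h))
  have hk : ∀ t : E, t.2 ≠ 0 → kap0 1 t = kap0 0 (tr 1 t) := by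
    intro t ht
    rw [k1, k0, inv1_ne ht]
    rfl
  refine ⟨hV, hk z h, ?_, ?_⟩
  · refine mkGerm hPt hz hV (tr 1) ?_ rfl ?_
    · exact cd_fst.prodMk (cd_snd.inv h)
    · filter_upwards [ev_ne (f := fun s : E => s.2) (by fun_prop) h] with t ht
      exact hk t ht
  · have hy : (tr 1 z).2 ≠ 0 := inv_ne_zero h
    refine mkGerm hPt hV hz (fun s => (s.1, s.2⁻¹)) ?_ ?_ ?_
    · exact cd_fst.prodMk (cd_snd.inv hy)
    · refine Prod.ext rfl ?_
      exact inv_inv _
    · filter_upwards [ev_ne (f := fun s : E => s.2) (by fun_prop) hy] with t ht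
      rw [hk _ (inv_ne_zero ht), k0, k0]
      change Pt.reg (frc t.1) _ = Pt.reg (frc t.1) (((t.2⁻¹)⁻¹ : ℂ) : OnePoint ℂ)
      rw [inv_inv]

/-- regular points with finite `y` -/
lemma reg_cases (hPt : StPt) (i : Fin 5) {z : E} (hz : z ∈ V i) (h : Rg i z) :
    ∃ s ∈ V 0, kap0 i z = kap0 0 s ∧ Germ i 0 z s ∧ Germ 0 i s z := by
  obtain ⟨x, y, hxy⟩ := h
  fin_cases i
  · exact ⟨z, hz, rfl, ⟨id, contDiffAt_id, rfl, Eventually.of_forall fun _ => rfl⟩,
      ⟨id, contDiffAt_id, rfl, Eventually.of_forall fun _ => rfl⟩⟩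
  · have h0 : z.2 ≠ 0 := by
      intro h0
      change kap0 1 z = _ at hxy
      rw [k1, h0, inv1_zero, Pt.reg.injEq] at hxy
      exact OnePoint.infty_ne_coe _ hxy.2
    exact ⟨_, one_cases hPt h0⟩
  · have h0 : z.2 ≠ 0 := by
      intro h0
      change kap0 2 z = _ at hxy
      rw [k2e h0] at hxy
      exact absurd hxy (by simp)
    exact ⟨_, two_cases hPt hz h0⟩
  · have h0 : z.1 * z.2 ≠ 0 := by
      intro h0
      change kap0 3 z = _ at hxy
      rw [k3e h0] at hxy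
      exact absurd hxy (by simp)
    exact ⟨_, three_cases hPt hz h0⟩
  · have h0 : z.1 ≠ 0 := by
      intro h0
      change kap0 4 z = _ at hxy
      rw [k4e h0] at hxy
      exact absurd hxy (by simp)
    exact ⟨_, four_cases hPt hz h0⟩

/-- translations -/
lemma trans_germ (hPt : StPt) {s s' : E} (hs : s ∈ V 0) (hs' : s' ∈ V 0)
    (h : kap0 0 s = kap0 0 s') : Germ 0 0 s s' := by
  rw [k0, k0] at h
  obtain ⟨h1, h2⟩ := reg_inj h
  have h3 := frc_eq h1
  refine mkGerm hPt hs hs' (fun t => (t.1 + (s'.1 - s.1), t.2)) ?_ ?_ ?_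
  · exact (cd_fst.add contDiffAt_const).prodMk cd_snd
  · exact Prod.ext (by simp) h2
  · refine Eventually.of_forall fun t => ?_
    rw [k0, k0]
    dsimp only
    rw [frc_add h3]

/-- the exceptional points -/
lemma exc_cases (hPt : StPt) (i j : Fin 5) {z z' : E} (hz : z ∈ V i) (hz' : z' ∈ V j)
    (h : kap0 i z = kap0 j z') (Y Z : OnePoint ℂ) (he : kap0 i z = Pt.exc Y Z) :
    Germ i j z z' := by
  have he' : kap0 j z' = Pt.exc Y Z := h ▸ he
  -- the conditions at the two points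
  have c2 : ∀ {z : E} {Y Z : OnePoint ℂ}, kap0 2 z = Pt.exc Y Z →
      z.2 = 0 ∧ inv1 z.1 = Y ∧ OnePoint.infty = Z := by
    intro z Y Z h
    by_cases h0 : z.2 = 0
    · rw [k2e h0, Pt.exc.injEq] at h
      exact ⟨h0, h⟩
    · rw [k2r h0] at h
      exact absurd h (by simp)
  have c3 : ∀ {z : E} {Y Z : OnePoint ℂ}, kap0 3 z = Pt.exc Y Z →
      z.1 * z.2 = 0 ∧ ((z.2 : ℂ) : OnePoint ℂ) = Y ∧ inv1 z.1 = Z := by
    intro z Y Z h
    by_cases h0 : z.1 * z.2 = 0
    · rw [k3e h0, Pt.exc.injEq] at h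
      exact ⟨h0, h⟩
    · rw [k3r h0] at h
      exact absurd h (by simp)
  have c4 : ∀ {z : E} {Y Z : OnePoint ℂ}, kap0 4 z = Pt.exc Y Z →
      z.1 = 0 ∧ ((0 : ℂ) : OnePoint ℂ) = Y ∧ ((z.2 : ℂ) : OnePoint ℂ) = Z := by
    intro z Y Z h
    by_cases h0 : z.1 = 0
    · rw [k4e h0, Pt.exc.injEq] at h
      exact ⟨h0, h⟩
    · rw [k4r h0] at h
      exact absurd h (by simp)
  have refl : ∀ {i : Fin 5} {z : E}, Germ i i z z := fun {i z} =>
    ⟨id, contDiffAt_id, rfl, Eventually.of_forall fun _ => rfl⟩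
  fin_cases i
  · change kap0 0 z = _ at he
    rw [k0] at he
    exact absurd he (by simp)
  · change kap0 1 z = _ at he
    rw [k1] at he
    exact absurd he (by simp)
  · obtain ⟨a1, a2, a3⟩ := c2 he
    fin_cases j
    · exact absurd he' (by simp [kap0])
    · exact absurd he' (by simp [kap0])
    · have := inj2 hz hz' h
      subst this
      exact refl
    · obtain ⟨b1, b2, b3⟩ := c3 he'
      rw [← a3] at b3
      have hz'1 : z'.1 = 0 := inv1_infty b3
      rw [← b2] at a2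
      obtain ⟨hz1, hz2⟩ := inv1_coe a2
      refine mkGerm hPt hz hz' (fun t => (t.1 ^ 2 * t.2, t.1⁻¹)) ?_ ?_ ?_
      · exact ((cd_fst.pow 2).mul cd_snd).prodMk (cd_fst.inv hz1)
      · refine Prod.ext ?_ hz2
        change z.1 ^ 2 * z.2 = z'.1
        rw [a1, hz'1, mul_zero]
      · filter_upwards [ev_ne (f := fun s : E => s.1) (by fun_prop) hz1] with t ht
        have e : t.1 ^ 2 * t.2 * t.1⁻¹ = t.1 * t.2 := by field_simp
        change kap0 2 t = kap0 3 (t.1 ^ 2 * t.2, t.1⁻¹)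
        by_cases h0 : t.2 = 0
        · rw [k2e h0, k3e (z := (t.1 ^ 2 * t.2, t.1⁻¹)) (by
            change t.1 ^ 2 * t.2 * t.1⁻¹ = 0
            rw [e, h0, mul_zero])]
          dsimp only
          rw [h0, mul_zero, inv1_zero, inv1_ne ht]
        · rw [k2r h0, k3r (z := (t.1 ^ 2 * t.2, t.1⁻¹)) (by
            change t.1 ^ 2 * t.2 * t.1⁻¹ ≠ 0
            rw [e]
            exact mul_ne_zero ht h0)]
          dsimp only
          have e2 : t.1 ^ 2 * t.2 * t.1⁻¹ ^ 2 = t.2 := by field_simp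
          rw [e, e2]
    · obtain ⟨b1, b2, b3⟩ := c4 he'
      rw [← a3] at b3
      exact absurd b3 (OnePoint.coe_ne_infty _)
  · obtain ⟨a1, a2, a3⟩ := c3 he
    fin_cases j
    · exact absurd he' (by simp [kap0])
    · exact absurd he' (by simp [kap0])
    · obtain ⟨b1, b2, b3⟩ := c2 he'
      rw [← b3] at a3
      have hz1 : z.1 = 0 := inv1_infty a3
      rw [← a2] at b2
      obtain ⟨hz'1, hz2⟩ := inv1_coe b2
      have hz20 : z.2 ≠ 0 := by
        rw [← hz2]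
        exact inv_ne_zero hz'1
      refine mkGerm hPt hz hz' (fun t => (t.2⁻¹, t.1 * t.2 ^ 2)) ?_ ?_ ?_
      · exact (cd_snd.inv hz20).prodMk (cd_fst.mul (cd_snd.pow 2))
      · refine Prod.ext ?_ ?_
        · change z.2⁻¹ = z'.1
          rw [← hz2, inv_inv]
        · change z.1 * z.2 ^ 2 = z'.2
          rw [hz1, b1, zero_mul]
      · filter_upwards [ev_ne (f := fun s : E => s.2) (by fun_prop) hz20] with t ht
        have e : t.2⁻¹ * (t.1 * t.2 ^ 2) = t.1 * t.2 := by field_simp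
        change kap0 3 t = kap0 2 (t.2⁻¹, t.1 * t.2 ^ 2)
        by_cases h0 : t.1 = 0
        · rw [k3e (by rw [h0, zero_mul]), k2e (z := (t.2⁻¹, t.1 * t.2 ^ 2)) (by
            change t.1 * t.2 ^ 2 = 0
            rw [h0, zero_mul])]
          dsimp only
          rw [h0, inv1_zero, inv1_ne (inv_ne_zero ht), inv_inv]
        · rw [k3r (mul_ne_zero h0 ht), k2r (z := (t.2⁻¹, t.1 * t.2 ^ 2))
            (mul_ne_zero h0 (pow_ne_zero 2 ht))]
          dsimp only
          rw [e]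
    · have := inj3 hz hz' h
      subst this
      exact refl
    · obtain ⟨b1, b2, b3⟩ := c4 he'
      rw [← b2] at a2
      have hz2 : z.2 = 0 := OnePoint.coe_injective a2
      rw [← b3] at a3
      obtain ⟨hz1, hz3⟩ := inv1_coe a3
      refine mkGerm hPt hz hz' (fun t => (t.1 * t.2, t.1⁻¹)) ?_ ?_ ?_
      · exact (cd_fst.mul cd_snd).prodMk (cd_fst.inv hz1)
      · refine Prod.ext ?_ hz3
        change z.1 * z.2 = z'.1
        rw [a1, b1]
      · filter_upwards [ev_ne (f := fun s : E => s.1) (by fun_prop) hz1] with t ht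
        change kap0 3 t = kap0 4 (t.1 * t.2, t.1⁻¹)
        by_cases h0 : t.2 = 0
        · rw [k3e (by rw [h0, mul_zero]), k4e (z := (t.1 * t.2, t.1⁻¹)) (by
            change t.1 * t.2 = 0
            rw [h0, mul_zero])]
          dsimp only
          rw [h0, inv1_ne ht]
        · rw [k3r (mul_ne_zero ht h0), k4r (z := (t.1 * t.2, t.1⁻¹)) (mul_ne_zero ht h0)]
          dsimp only
          have e2 : (t.1 * t.2) ^ 2 * t.1⁻¹ = t.1 * t.2 ^ 2 := by field_simp
          rw [e2]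
  · obtain ⟨a1, a2, a3⟩ := c4 he
    fin_cases j
    · exact absurd he' (by simp [kap0])
    · exact absurd he' (by simp [kap0])
    · obtain ⟨b1, b2, b3⟩ := c2 he'
      rw [← b3] at a3
      exact absurd a3 (OnePoint.coe_ne_infty _)
    · obtain ⟨b1, b2, b3⟩ := c3 he'
      rw [← a2] at b2
      have hz2 : z'.2 = 0 := OnePoint.coe_injective b2
      rw [← a3] at b3
      obtain ⟨hz1, hz3⟩ := inv1_coe b3
      have hz20 : z.2 ≠ 0 := by
        rw [← hz3]
        exact inv_ne_zero hz1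
      refine mkGerm hPt hz hz' (fun t => (t.2⁻¹, t.1 * t.2)) ?_ ?_ ?_
      · exact (cd_snd.inv hz20).prodMk (cd_fst.mul cd_snd)
      · refine Prod.ext ?_ ?_
        · change z.2⁻¹ = z'.1
          rw [← hz3, inv_inv]
        · change z.1 * z.2 = z'.2
          rw [a1, hz2, zero_mul]
      · filter_upwards [ev_ne (f := fun s : E => s.2) (by fun_prop) hz20] with t ht
        have e : t.2⁻¹ * (t.1 * t.2) = t.1 := by field_simp
        change kap0 4 t = kap0 3 (t.2⁻¹, t.1 * t.2)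
        by_cases h0 : t.1 = 0
        · rw [k4e h0, k3e (z := (t.2⁻¹, t.1 * t.2)) (by
            change t.2⁻¹ * (t.1 * t.2) = 0
            rw [e, h0])]
          dsimp only
          rw [h0, zero_mul, inv1_ne (inv_ne_zero ht), inv_inv]
        · rw [k4r h0, k3r (z := (t.2⁻¹, t.1 * t.2)) (by
            change t.2⁻¹ * (t.1 * t.2) ≠ 0
            rw [e]
            exact h0)]
          dsimp only
          have e2 : t.2⁻¹ * (t.1 * t.2) ^ 2 = t.1 ^ 2 * t.2 := by field_simp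
          rw [e, e2]
    · have := inj4 hz hz' h
      subst this
      exact refl

theorem germ (hPt : StPt) : StGerm := by
  obtain ⟨ho, -, hk, -⟩ := id hPt
  have hk0 : ∀ {i j : Fin 5} {z z' : E}, z ∈ V i → z' ∈ V j → kap i z = kap j z' →
      kap0 i z = kap0 j z' := by
    intro i j z z' hz hz' h
    rw [← hk i z hz, ← hk j z' hz', h]
  constructor
  · intro j z hz
    -- charts 0 and 1
    have hsmall : ∀ t t' : E, t ∈ Metric.ball z (1 / 2) → t' ∈ Metric.ball z (1 / 2) →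
        frc t.1 = frc t'.1 → t.1 = t'.1 := by
      intro t t' ht ht' h
      have h1 : ‖t'.1 - t.1‖ < 1 := by
        have d1 : dist t'.1 z.1 ≤ dist t' z := by
          rw [Prod.dist_eq]
          exact le_max_left _ _
        have d2 : dist t.1 z.1 ≤ dist t z := by
          rw [Prod.dist_eq]
          exact le_max_left _ _
        rw [← dist_eq_norm]
        calc dist t'.1 t.1 ≤ dist t'.1 z.1 + dist t.1 z.1 := dist_triangle_right _ _ _
          _ < 1 / 2 + 1 / 2 := add_lt_add (d1.trans_lt ht') (d2.trans_lt ht)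
          _ = 1 := by norm_num
      exact (sub_eq_zero.mp (lam_small (frc_eq h) h1)).symm
    fin_cases j
    · refine ⟨Metric.ball z (1 / 2) ∩ V 0, inter_mem (Metric.ball_mem_nhds _ (by norm_num))
        ((ho 0).mem_nhds hz), ?_⟩
      intro t ht t' ht' h
      have h1 := hk0 ht.2 ht'.2 h
      rw [k0, k0] at h1
      obtain ⟨h2, h3⟩ := reg_inj h1
      exact Prod.ext (hsmall t t' ht.1 ht'.1 h2) h3
    · refine ⟨Metric.ball z (1 / 2), Metric.ball_mem_nhds _ (by norm_num), ?_⟩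
      intro t ht t' ht' h
      have h1 := hk0 (i := 1) (j := 1) (Set.mem_univ t) (Set.mem_univ t') h
      rw [k1, k1, Pt.reg.injEq] at h1
      exact Prod.ext (hsmall t t' ht ht' h1.1) (inv1_inj h1.2)
    · exact ⟨V 2, (ho 2).mem_nhds hz, fun t ht t' ht' h => inj2 ht ht' (hk0 ht ht' h)⟩
    · exact ⟨V 3, (ho 3).mem_nhds hz, fun t ht t' ht' h => inj3 ht ht' (hk0 ht ht' h)⟩
    · exact ⟨V 4, (ho 4).mem_nhds hz, fun t ht t' ht' h => inj4 ht ht' (hk0 ht ht' h)⟩
  · intro i j z hz z' hz' h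
    have h0 := hk0 hz hz' h
    change Germ i j z z'
    rcases hv : kap0 i z with ⟨x, y⟩ | ⟨Y, Z⟩
    · induction y using OnePoint.rec with
      | infty =>
        -- both charts are the chart 1
        have key : ∀ (i : Fin 5) (z : E), kap0 i z = Pt.reg x OnePoint.infty →
            i = 1 ∧ z.2 = 0 := by
          intro i z hi
          fin_cases i
          · change kap0 0 z = _ at hi
            rw [k0, Pt.reg.injEq] at hi
            exact absurd hi.2 (OnePoint.coe_ne_infty _)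
          · change kap0 1 z = _ at hi
            rw [k1, Pt.reg.injEq] at hi
            exact ⟨rfl, inv1_infty hi.2⟩
          · change kap0 2 z = _ at hi
            by_cases h0 : z.2 = 0
            · rw [k2e h0] at hi
              exact absurd hi (by simp)
            · rw [k2r h0, Pt.reg.injEq] at hi
              exact absurd hi.2 (OnePoint.coe_ne_infty _)
          · change kap0 3 z = _ at hi
            by_cases h0 : z.1 * z.2 = 0
            · rw [k3e h0] at hi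
              exact absurd hi (by simp)
            · rw [k3r h0, Pt.reg.injEq] at hi
              exact absurd hi.2 (OnePoint.coe_ne_infty _)
          · change kap0 4 z = _ at hi
            by_cases h0 : z.1 = 0
            · rw [k4e h0] at hi
              exact absurd hi (by simp)
            · rw [k4r h0, Pt.reg.injEq] at hi
              exact absurd hi.2 (OnePoint.coe_ne_infty _)
        obtain ⟨rfl, hz2⟩ := key i z hv
        obtain ⟨rfl, hz2'⟩ := key j z' (h0 ▸ hv)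
        rw [k1, k1, Pt.reg.injEq] at h0
        have h3 := frc_eq h0.1
        refine mkGerm hPt hz hz' (fun t => (t.1 + (z'.1 - z.1), t.2)) ?_ ?_ ?_
        · exact (cd_fst.add contDiffAt_const).prodMk cd_snd
        · exact Prod.ext (by simp) (hz2.trans hz2'.symm)
        · refine Eventually.of_forall fun t => ?_
          rw [k1, k1]
          dsimp only
          rw [frc_add h3]
      | coe y =>
        obtain ⟨s, hs, e1, g1, -⟩ := reg_cases hPt i hz ⟨x, y, hv⟩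
        obtain ⟨s', hs', e1', -, g2⟩ := reg_cases hPt j hz' ⟨x, y, h0 ▸ hv⟩
        exact (g1.comp (trans_germ hPt hs hs' (by rw [← e1, h0, e1']))).comp g2
    · exact exc_cases hPt i j hz hz' h0 Y Z hv

end Pool.Agent.Y378.SP
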